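import Mathlib
set_option autoImplicit false

/-!
The elliptic curves `Y² + k X Y = X³ - 2 X² + X`: every elliptic curve over a number field becomes
isomorphic to one of them over a finite extension.
-/

namespace Pool.Agent.Run7.h770.IJ

open Polynomial WeierstrassCurve

/-- The Weierstrass curve `Y² + k X Y = X³ - 2 X² + X`. -/
def crv {K : Type*} [Field K] (k : K) : WeierstrassCurve K where
  a₁ := k
  a₂ := -2
  a₃ := 0
  a₄ := 1
  a₆ := 0

section basic

variable {K : Type*} [Field K]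

theorem disc_crv (k : K) : (crv k).Δ = k ^ 2 * (k ^ 2 - 16) := by
  simp only [WeierstrassCurve.Δ, WeierstrassCurve.b₂, WeierstrassCurve.b₄, WeierstrassCurve.b₆,
    WeierstrassCurve.b₈, crv]
  ring

theorem c4_crv (k : K) : (crv k).c₄ = k ^ 4 - 16 * k ^ 2 + 16 := by
  simp only [WeierstrassCurve.c₄, WeierstrassCurve.b₂, WeierstrassCurve.b₄, crv]
  ring

theorem map_crv {L : Type*} [Field L] (f : K →+* L) (k : K) : (crv k).map f = crv (f k) := by
  unfold crv WeierstrassCurve.map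
  ext <;> simp [map_ofNat]

theorem disc_ne {k : K} (h0 : k ≠ 0) (h4 : k ^ 2 ≠ 16) : (crv k).Δ ≠ 0 := by
  rw [disc_crv]
  exact mul_ne_zero (pow_ne_zero 2 h0) (sub_ne_zero.2 h4)

theorem isElliptic_crv {k : K} (h0 : k ≠ 0) (h4 : k ^ 2 ≠ 16) : (crv k).IsElliptic :=
  ⟨isUnit_iff_ne_zero.2 (disc_ne h0 h4)⟩

/-- the `j`-invariant -/
noncomputable def jk (k : K) : K := (k ^ 4 - 16 * k ^ 2 + 16) ^ 3 / (k ^ 2 * (k ^ 2 - 16))

theorem j_crv {k : K} [(crv k).IsElliptic] : (crv k).j = jk k := by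
  unfold WeierstrassCurve.j jk
  rw [c4_crv, ← disc_crv, ← WeierstrassCurve.coe_Δ', Units.val_inv_eq_inv_val, div_eq_mul_inv,
    mul_comm]

end basic

section closed

variable {Ω : Type*} [Field Ω] [CharZero Ω] [IsAlgClosed Ω]

theorem exists_jk (j : Ω) : ∃ k : Ω, k ≠ 0 ∧ k ^ 2 ≠ 16 ∧ jk k = j := by
  set P : Polynomial Ω := (X ^ 4 - 16 * X ^ 2 + 16) ^ 3 - C j * (X ^ 2 * (X ^ 2 - 16)) with hP
  have hd : P.degree ≠ 0 := by
    have : P.natDegree = 12 := by
      rw [hP]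
      compute_degree!
    intro h
    have := natDegree_eq_of_degree_eq_some (n := 0) h
    omega
  obtain ⟨k, hk⟩ := IsAlgClosed.exists_root P hd
  have h1 : (k ^ 4 - 16 * k ^ 2 + 16) ^ 3 = j * (k ^ 2 * (k ^ 2 - 16)) := by
    have h2 : P.eval k = 0 := hk
    rw [hP] at h2
    simp only [eval_sub, eval_mul, eval_pow, eval_add, eval_X, eval_C, eval_ofNat] at h2
    linear_combination h2
  have h16 : (16 : Ω) ≠ 0 := by norm_num
  have h0 : k ≠ 0 := by
    rintro rfl
    have : (16 : Ω) ^ 3 = 0 := by linear_combination h1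
    exact pow_ne_zero 3 h16 this
  have h4 : k ^ 2 ≠ 16 := by
    intro h
    have h3 : k ^ 4 = 256 := by
      have : k ^ 4 = (k ^ 2) ^ 2 := by ring
      rw [this, h]
      norm_num
    rw [h3, h] at h1
    have : (16 : Ω) ^ 3 = 0 := by linear_combination h1
    exact pow_ne_zero 3 h16 this
  refine ⟨k, h0, h4, ?_⟩
  unfold jk
  rw [div_eq_iff (mul_ne_zero (pow_ne_zero 2 h0) (sub_ne_zero.2 h4)), h1]

theorem exists_crv (E : WeierstrassCurve Ω) [E.IsElliptic] :
    ∃ k : Ω, k ≠ 0 ∧ k ^ 2 ≠ 16 ∧ jk k = E.j ∧ ∃ C : VariableChange Ω, C • E = crv k := by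
  obtain ⟨k, h0, h4, hj⟩ := exists_jk E.j
  have _ := isElliptic_crv h0 h4
  refine ⟨k, h0, h4, hj, exists_variableChange_of_j_eq E (crv k) ?_⟩
  rw [j_crv, hj]

end closed

section descent

variable {K : Type*} [Field K] {Ω : Type*} [Field Ω] [Algebra K Ω]

theorem descend (L : IntermediateField K Ω) (E : WeierstrassCurve K) (k : L)
    (C : VariableChange Ω) (hu : (C.u : Ω) ∈ L) (hr : C.r ∈ L) (hs : C.s ∈ L) (ht : C.t ∈ L)
    (h : C • E.map (algebraMap K Ω) = crv (k : Ω)) :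
    ∃ C' : VariableChange L, C' • E.map (algebraMap K L) = crv k := by
  have hu0 : (⟨(C.u : Ω), hu⟩ : L) ≠ 0 := by
    intro h0
    exact C.u.ne_zero (congrArg Subtype.val h0)
  set C' : VariableChange L := ⟨Units.mk0 ⟨(C.u : Ω), hu⟩ hu0, ⟨C.r, hr⟩, ⟨C.s, hs⟩, ⟨C.t, ht⟩⟩
    with hC'
  refine ⟨C', ?_⟩
  have hC : C'.map (algebraMap L Ω) = C := by
    rw [hC']
    unfold VariableChange.map
    ext <;> rfl
  apply WeierstrassCurve.map_injective (algebraMap L Ω).injective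
  show (C' • E.map (algebraMap K L)).map (algebraMap L Ω) = (crv k).map (algebraMap L Ω)
  rw [← WeierstrassCurve.map_variableChange, hC, map_crv, WeierstrassCurve.map_map,
    ← IsScalarTower.algebraMap_eq]
  exact h

end descent

section val

open scoped WithZero

/-- If the `j`-invariant is integral, then so is `k`. -/
theorem val_le_of_j {F : Type*} [Field F] (v : Valuation F ℤᵐ⁰) {k j : F}
    (h : (k ^ 4 - 16 * k ^ 2 + 16) ^ 3 = j * (k ^ 2 * (k ^ 2 - 16))) (hj : v j ≤ 1) : v k ≤ 1 := by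
  by_contra hk
  have hk1 : 1 < v k := not_le.1 hk
  have h16 : v (16 : F) ≤ 1 := by
    have h2 : v (2 : F) ≤ 1 := by
      have e : (2 : F) = 1 + 1 := by norm_num
      rw [e]
      exact v.map_add_le (map_one v).le (map_one v).le
    have e : (16 : F) = 2 ^ 4 := by norm_num
    rw [e, map_pow]
    exact pow_le_one' h2 4
  have hk0 : 0 < v k := one_pos.trans hk1
  have h2 : v (k ^ 2 - 16) = v k ^ 2 := by
    rw [Valuation.map_sub_eq_of_lt_left, map_pow]
    rw [map_pow]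
    exact h16.trans_lt (one_lt_pow₀ hk1 two_ne_zero)
  have h4 : v (k ^ 4 - 16 * k ^ 2 + 16) = v k ^ 4 := by
    have e : k ^ 4 - 16 * k ^ 2 + 16 = k ^ 4 + (16 - 16 * k ^ 2) := by ring
    rw [e, Valuation.map_add_eq_of_lt_left, map_pow]
    rw [map_pow]
    refine (Valuation.map_sub v _ _).trans_lt (max_lt ?_ ?_)
    · exact h16.trans_lt (one_lt_pow₀ hk1 (by norm_num))
    · rw [map_mul, map_pow]
      calc v (16 : F) * v k ^ 2 ≤ 1 * v k ^ 2 := mul_le_mul_left h16 _
        _ = v k ^ 2 := one_mul _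
        _ < v k ^ 4 := pow_lt_pow_right₀ hk1 (by norm_num)
  have h5 := congrArg v h
  rw [map_pow, h4, map_mul, map_mul, map_pow, h2] at h5
  have h6 : v k ^ 12 ≤ v k ^ 4 := by
    calc v k ^ 12 = (v k ^ 4) ^ 3 := by rw [← pow_mul]
      _ = v j * (v k ^ 2 * v k ^ 2) := h5
      _ ≤ 1 * (v k ^ 2 * v k ^ 2) := mul_le_mul_left hj _
      _ = v k ^ 4 := by rw [one_mul, ← pow_add]
  exact absurd (pow_lt_pow_right₀ hk1 (by norm_num : 4 < 12)) (not_lt.2 h6)

end val

end Pool.Agent.Run7.h770.IJ
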