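import Pool.Agent.TH690.UR.Pair
set_option autoImplicit false

/-!
For every complex number `z` other than `0`, `4` and `-4` there is a loop on the curve
`x + 1/x + y + 1/y = z` on which the regulator of `{x, y}` does not vanish.
-/

namespace Pool.Agent.Run7.h770.IJ

open MeasureTheory Set

open Pool.Agent.TH826.UH Pool.Agent.TH690.UR

open Pool.Agent.TH826.MK (circ norm_circ contDiff_circ circ_add_one hasDerivAt_circ)

open scoped Real

/-- A loop on `x + 1/x + y + 1/y = z` with nonzero regulator. -/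
structure LoopAt (z : ℂ) (x y : ℝ → ℂ) : Prop where
  nzx : NZ x
  nzy : NZ y
  perx : ∀ t, x (t + 1) = x t
  pery : ∀ t, y (t + 1) = y t
  eq : ∀ t, x t + (x t)⁻¹ + y t + (y t)⁻¹ = z
  reg : pr x y ≠ 0

theorem LoopAt.neg {z : ℂ} {x y : ℝ → ℂ} (h : LoopAt z x y) :
    LoopAt (-z) (fun t => -x t) (fun t => -y t) where
  nzx := h.nzx.neg
  nzy := h.nzy.neg
  perx t := by simp only [h.perx]
  pery t := by simp only [h.pery]
  eq t := by
    rw [← h.eq t, inv_neg, inv_neg]
    ring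
  reg := by
    rw [pr_neg, pr_neg_left]
    exact h.reg

section caseA

/-- the square root of `(w - 2) / (w + 2)` with positive real part -/
noncomputable def sr (w : ℂ) : ℂ := Complex.exp (Complex.log ((w - 2) / (w + 2)) / 2)

/-- `w` is not a real number in `[-2, 2]`. -/
def Off (w : ℂ) : Prop := ∀ a : ℝ, |a| ≤ 2 → w ≠ a

theorem Off.ne {w : ℂ} (h : Off w) : w + 2 ≠ 0 := fun h0 => h (-2) (by simp) (by
  push_cast
  linear_combination h0)

theorem Off.slit {w : ℂ} (h : Off w) : (w - 2) / (w + 2) ∈ Complex.slitPlane := by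
  by_contra hc
  rw [Complex.mem_slitPlane_iff, not_or, not_lt, not_not] at hc
  obtain ⟨h1, h2⟩ := hc
  set a : ℝ := -((w - 2) / (w + 2)).re with ha
  have ha0 : 0 ≤ a := by rw [ha]; linarith
  have e : (w - 2) / (w + 2) = ((-a : ℝ) : ℂ) := by
    rw [ha, neg_neg]
    exact Complex.ext (by simp) (by simp [h2])
  rw [div_eq_iff h.ne] at e
  have ha1 : (1 + a : ℝ) ≠ 0 := by positivity
  have ha2 : ((1 + a : ℝ) : ℂ) ≠ 0 := Complex.ofReal_ne_zero.2 ha1
  refine h (2 * (1 - a) / (1 + a)) ?_ ?_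
  · rw [abs_le]
    constructor
    · rw [le_div_iff₀ (by positivity)]
      linarith
    · rw [div_le_iff₀ (by positivity)]
      linarith
  · have e3 : (((2 * (1 - a) / (1 + a) : ℝ)) : ℂ) = 2 * (1 - a) / ((1 + a : ℝ) : ℂ) := by
      push_cast
      ring
    rw [e3, eq_div_iff ha2]
    push_cast at e ⊢
    linear_combination e

theorem Off.sq {w : ℂ} (h : Off w) : sr w ^ 2 = (w - 2) / (w + 2) := by
  unfold sr
  rw [← Complex.exp_nat_mul, show ((2 : ℕ) : ℂ) * (Complex.log ((w - 2) / (w + 2)) / 2) =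
    Complex.log ((w - 2) / (w + 2)) by push_cast; ring, Complex.exp_log]
  exact Complex.slitPlane_ne_zero h.slit

theorem Off.re_pos {w : ℂ} (h : Off w) : 0 < (sr w).re := by
  unfold sr
  rw [Complex.exp_re]
  refine mul_pos (Real.exp_pos _) (Real.cos_pos_of_mem_Ioo ?_)
  have h1 : (Complex.log ((w - 2) / (w + 2)) / 2).im = Complex.arg ((w - 2) / (w + 2)) / 2 := by
    rw [show (Complex.log ((w - 2) / (w + 2)) / 2) = (Complex.log ((w - 2) / (w + 2))) / (2 : ℝ)
      by push_cast; rfl, Complex.div_ofReal_im, Complex.log_im]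
  rw [h1]
  have h2 := Complex.neg_pi_lt_arg ((w - 2) / (w + 2))
  have h3 := Complex.arg_le_pi ((w - 2) / (w + 2))
  have h4 : Complex.arg ((w - 2) / (w + 2)) ≠ π := Complex.slitPlane_arg_ne_pi h.slit
  have h5 := lt_of_le_of_ne h3 h4
  constructor <;> linarith

theorem Off.one_add {w : ℂ} (h : Off w) : 1 + sr w ≠ 0 := by
  intro h0
  have h1 := congrArg Complex.re h0
  rw [Complex.add_re, Complex.one_re, Complex.zero_re] at h1
  linarith [h.re_pos]

theorem Off.one_sub {w : ℂ} (h : Off w) : 1 - sr w ≠ 0 := by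
  intro h0
  have h1 := h.sq
  rw [← sub_eq_zero.1 h0, eq_div_iff h.ne] at h1
  have h2 : (4 : ℂ) = 0 := by linear_combination h1
  norm_num at h2

/-- the larger root of `y + 1/y = w` -/
noncomputable def rt (w : ℂ) : ℂ := (1 + sr w) / (1 - sr w)

theorem Off.rt_ne {w : ℂ} (h : Off w) : rt w ≠ 0 := div_ne_zero h.one_add h.one_sub

theorem Off.rt_eq {w : ℂ} (h : Off w) : rt w + (rt w)⁻¹ = w := by
  have h1 := h.sq
  have h2 := h.one_add
  have h3 := h.one_sub
  have h4 := h.ne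
  rw [eq_div_iff h4] at h1
  unfold rt
  rw [inv_div]
  rw [div_add_div _ _ h3 h2, div_eq_iff (mul_ne_zero h3 h2)]
  linear_combination h1

theorem Off.one_lt {w : ℂ} (h : Off w) : 1 < ‖rt w‖ := by
  unfold rt
  rw [norm_div, one_lt_div (norm_pos_iff.2 h.one_sub)]
  have h1 := h.re_pos
  refine lt_of_pow_lt_pow_left₀ 2 (norm_nonneg _) ?_
  rw [Complex.sq_norm, Complex.sq_norm, Complex.normSq_apply, Complex.normSq_apply]
  simp only [Complex.sub_re, Complex.sub_im, Complex.add_re, Complex.add_im, Complex.one_re,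
    Complex.one_im]
  nlinarith

theorem contDiff_rt {w : ℝ → ℂ} (hw : ContDiff ℝ 2 w) (h : ∀ t, Off (w t)) :
    ContDiff ℝ 2 fun t => rt (w t) := by
  have h1 : ContDiff ℝ 2 fun t => (w t - 2) / (w t + 2) := by
    simp only [div_eq_mul_inv]
    exact (hw.sub contDiff_const).mul ((hw.add contDiff_const).inv fun t => (h t).ne)
  have h2 : ContDiff ℝ 2 fun t => Complex.log ((w t - 2) / (w t + 2)) := by
    rw [contDiff_iff_contDiffAt]
    intro t
    exact ((Complex.contDiffAt_log (n := 2) (h t).slit).restrict_scalars ℝ).comp t h1.contDiffAt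
  have h3 : ContDiff ℝ 2 fun t => sr (w t) := by
    unfold sr
    simp only [div_eq_mul_inv] at h2 ⊢
    exact (h2.mul contDiff_const).cexp
  unfold rt
  simp only [div_eq_mul_inv]
  exact (contDiff_const.add h3).mul ((contDiff_const.sub h3).inv fun t => (h t).one_sub)

theorem circ_inv (t : ℝ) : circ 1 t + (circ 1 t)⁻¹ = ((2 * Real.cos (2 * π * t) : ℝ) : ℂ) := by
  unfold circ
  rw [Complex.ofReal_one, one_mul, ← Complex.exp_neg]
  push_cast
  rw [Complex.two_cos]
  congr 2
  · ring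
  · ring

theorem exists_loopA {z : ℂ} (hz : ∀ a : ℝ, |a| ≤ 4 → z ≠ a) : ∃ x y, LoopAt z x y := by
  have hw : ∀ t : ℝ, Off (z - (circ 1 t + (circ 1 t)⁻¹)) := by
    intro t a ha he
    rw [circ_inv] at he
    refine hz (a + 2 * Real.cos (2 * π * t)) ?_ ?_
    · have h1 : |2 * Real.cos (2 * π * t)| ≤ 2 := by
        rw [abs_mul, abs_two]
        linarith [Real.abs_cos_le_one (2 * π * t)]
      exact (abs_add_le _ _).trans (by linarith)
    · push_cast at he ⊢
      linear_combination he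
  have hc : NZ (circ 1) := nz_circ one_pos
  have hy : NZ fun t => rt (z - (circ 1 t + (circ 1 t)⁻¹)) :=
    ⟨contDiff_rt (contDiff_const.sub (hc.smooth.add (hc.smooth.inv hc.ne_zero))) hw,
      fun t => (hw t).rt_ne⟩
  refine ⟨circ 1, fun t => rt (z - (circ 1 t + (circ 1 t)⁻¹)), hc, hy, circ_add_one 1,
    fun t => by simp only [circ_add_one], fun t => ?_, ?_⟩
  · rw [add_assoc, (hw t).rt_eq]
    ring
  · have h1 : pr (circ 1) (fun t => rt (z - (circ 1 t + (circ 1 t)⁻¹))) =
        -∫ t in (0 : ℝ)..1, Real.log ‖rt (z - (circ 1 t + (circ 1 t)⁻¹))‖ * (2 * π) := by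
      unfold pr
      rw [← intervalIntegral.integral_neg]
      refine intervalIntegral.integral_congr fun t _ => ?_
      simp only [ld_circ one_pos, norm_circ zero_le_one, Real.log_one, zero_mul, zero_sub]
    rw [h1]
    refine neg_ne_zero.2 (ne_of_gt ?_)
    refine intervalIntegral.intervalIntegral_pos_of_pos ?_ ?_ one_pos
    · exact (hy.cont_log.mul continuous_const).intervalIntegrable _ _
    · intro t
      exact mul_pos (Real.log_pos (hw t).one_lt) (by positivity)

end caseA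

section caseB

variable (ρ : ℝ)

/-- the angle -/
noncomputable def phi (t : ℝ) : ℝ := Real.arcsin (ρ * Real.sin (2 * π * t))

/-- the radius -/
noncomputable def sig (t : ℝ) : ℝ := Real.arsinh (ρ * Real.cos (2 * π * t))

variable {ρ}

theorem contDiff_sin2 : ContDiff ℝ 2 fun t : ℝ => ρ * Real.sin (2 * π * t) :=
  contDiff_const.mul (Real.contDiff_sin.comp (contDiff_const.mul contDiff_id))

theorem contDiff_cos2 : ContDiff ℝ 2 fun t : ℝ => ρ * Real.cos (2 * π * t) :=
  contDiff_const.mul (Real.contDiff_cos.comp (contDiff_const.mul contDiff_id))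

theorem lt_one (h0 : 0 < ρ) (h1 : ρ < 1) (t : ℝ) : |ρ * Real.sin (2 * π * t)| < 1 := by
  rw [abs_mul, abs_of_pos h0]
  calc ρ * |Real.sin (2 * π * t)| ≤ ρ * 1 :=
        mul_le_mul_of_nonneg_left (Real.abs_sin_le_one _) h0.le
    _ < 1 := by rwa [mul_one]

theorem hasDerivAt_phi (h0 : 0 < ρ) (h1 : ρ < 1) (t : ℝ) : HasDerivAt (phi ρ)
    (1 / √(1 - (ρ * Real.sin (2 * π * t)) ^ 2) * (ρ * (Real.cos (2 * π * t) * (2 * π)))) t := by
  have h2 := abs_lt.1 (lt_one h0 h1 t)
  have h3 : HasDerivAt (fun t : ℝ => ρ * Real.sin (2 * π * t))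
      (ρ * (Real.cos (2 * π * t) * (2 * π))) t := by
    have h4 : HasDerivAt (fun t : ℝ => 2 * π * t) (2 * π) t := by
      simpa using (hasDerivAt_id t).const_mul (2 * π)
    exact (h4.sin).const_mul ρ
  exact (Real.hasDerivAt_arcsin h2.1.ne' h2.2.ne).comp t h3

theorem contDiff_phi (h0 : 0 < ρ) (h1 : ρ < 1) : ContDiff ℝ 2 (phi ρ) := by
  rw [contDiff_iff_contDiffAt]
  intro t
  have h2 := abs_lt.1 (lt_one h0 h1 t)
  exact (Real.contDiffAt_arcsin h2.1.ne' h2.2.ne).comp t contDiff_sin2.contDiffAt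

theorem contDiff_sig : ContDiff ℝ 2 (sig ρ) := Real.contDiff_arsinh.comp contDiff_cos2

/-- the first function -/
noncomputable def bx (ρ t : ℝ) : ℂ := -Complex.exp (2 * Complex.I * (phi ρ t : ℂ))

/-- the second function -/
noncomputable def bY (ρ t : ℝ) : ℂ := Complex.exp (2 * (sig ρ t : ℂ))

theorem nz_bx (h0 : 0 < ρ) (h1 : ρ < 1) : NZ (bx ρ) :=
  ⟨((contDiff_const.mul (Complex.ofRealCLM.contDiff.comp (contDiff_phi h0 h1))).cexp).neg,
    fun _ => neg_ne_zero.2 (Complex.exp_ne_zero _)⟩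

theorem nz_bY : NZ (bY ρ) :=
  ⟨(contDiff_const.mul (Complex.ofRealCLM.contDiff.comp contDiff_sig)).cexp,
    fun _ => Complex.exp_ne_zero _⟩

theorem log_bx (t : ℝ) : Real.log ‖bx ρ t‖ = 0 := by
  unfold bx
  rw [norm_neg, Complex.norm_exp]
  simp

theorem log_bY (t : ℝ) : Real.log ‖bY ρ t‖ = 2 * sig ρ t := by
  unfold bY
  rw [Complex.norm_exp, Real.log_exp]
  simp

theorem ld_bx (h0 : 0 < ρ) (h1 : ρ < 1) (t : ℝ) : (deriv (bx ρ) t / bx ρ t).im =
    2 * (1 / √(1 - (ρ * Real.sin (2 * π * t)) ^ 2) * (ρ * (Real.cos (2 * π * t) * (2 * π)))) := by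
  have h2 := (hasDerivAt_phi h0 h1 t).ofReal_comp
  have h3 := ((h2.const_mul (2 * Complex.I)).cexp).neg
  have h4 : deriv (bx ρ) t = _ := h3.deriv
  rw [h4]
  have h5 := Complex.exp_ne_zero (2 * Complex.I * (phi ρ t : ℂ))
  unfold bx
  rw [neg_div_neg_eq, mul_div_assoc, mul_comm, div_mul_cancel₀]
  · simp only [Complex.mul_im, Complex.ofReal_re, Complex.ofReal_im, Complex.I_re, Complex.I_im,
      Complex.mul_re, Complex.re_ofNat, Complex.im_ofNat]
    ring
  · exact h5

theorem ld_bY (t : ℝ) : (deriv (bY ρ) t / bY ρ t).im = 0 := by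
  have h1 : HasDerivAt (sig ρ) (deriv (sig ρ) t) t :=
    ((contDiff_sig.differentiable (by norm_num)) t).hasDerivAt
  have h2 := h1.ofReal_comp
  have h3 := (h2.const_mul 2).cexp
  have h4 : deriv (bY ρ) t = _ := h3.deriv
  rw [h4]
  unfold bY
  rw [mul_comm, mul_div_assoc, div_self (Complex.exp_ne_zero _), mul_one]
  simp

theorem bx_inv (t : ℝ) : bx ρ t + (bx ρ t)⁻¹ = ((4 * Real.sin (phi ρ t) ^ 2 - 2 : ℝ) : ℂ) := by
  have h1 : Complex.exp (2 * Complex.I * (phi ρ t : ℂ)) +
      (Complex.exp (2 * Complex.I * (phi ρ t : ℂ)))⁻¹ = 2 * Complex.cos (2 * (phi ρ t : ℂ)) := by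
    rw [← Complex.exp_neg, Complex.two_cos]
    congr 2
    · ring
    · ring
  unfold bx
  rw [inv_neg, ← neg_add, h1, Complex.cos_two_mul, Complex.cos_sq']
  push_cast
  ring

theorem bY_inv (t : ℝ) : bY ρ t + (bY ρ t)⁻¹ = ((4 * Real.sinh (sig ρ t) ^ 2 + 2 : ℝ) : ℂ) := by
  have h1 : bY ρ t + (bY ρ t)⁻¹ = 2 * Complex.cosh (2 * (sig ρ t : ℂ)) := by
    unfold bY
    rw [← Complex.exp_neg, Complex.two_cosh]
  rw [h1, Complex.cosh_two_mul, Complex.cosh_sq]
  push_cast
  ring

theorem exists_loopB {r : ℝ} (h0 : 0 < r) (h4 : r < 4) : ∃ x y, LoopAt (r : ℂ) x y := by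
  set ρ : ℝ := √r / 2 with hρ
  have hρ0 : 0 < ρ := by rw [hρ]; positivity
  have hρ1 : ρ < 1 := by
    have : √r < 2 := by
      rw [show (2 : ℝ) = √4 by rw [show (4 : ℝ) = 2 ^ 2 by norm_num]; exact (Real.sqrt_sq (by norm_num)).symm]
      exact Real.sqrt_lt_sqrt h0.le h4
    rw [hρ]
    linarith
  have hρ2 : 4 * ρ ^ 2 = r := by
    rw [hρ, div_pow, Real.sq_sqrt h0.le]
    ring
  have hphi : ∀ t, phi ρ (t + 1) = phi ρ t := by
    intro t
    unfold phi
    rw [mul_add, mul_one, Real.sin_add_two_pi]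
  have hsig : ∀ t, sig ρ (t + 1) = sig ρ t := by
    intro t
    unfold sig
    rw [mul_add, mul_one, Real.cos_add_two_pi]
  refine ⟨bx ρ, bY ρ, nz_bx hρ0 hρ1, nz_bY, fun t => by unfold bx; rw [hphi],
    fun t => by unfold bY; rw [hsig], fun t => ?_, ?_⟩
  · have h2 := abs_lt.1 (lt_one hρ0 hρ1 t)
    have h3 : Real.sin (phi ρ t) = ρ * Real.sin (2 * π * t) := by
      unfold phi
      exact Real.sin_arcsin h2.1.le h2.2.le
    have h5 : Real.sinh (sig ρ t) = ρ * Real.cos (2 * π * t) := by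
      unfold sig
      exact Real.sinh_arsinh _
    rw [add_assoc, bx_inv, bY_inv, h3, h5, ← Complex.ofReal_add]
    congr 1
    rw [← hρ2]
    have h6 := Real.sin_sq_add_cos_sq (2 * π * t)
    linear_combination 4 * ρ ^ 2 * h6
  · have h1 : pr (bx ρ) (bY ρ) = -∫ t in (0 : ℝ)..1, 2 * sig ρ t *
        (2 * (1 / √(1 - (ρ * Real.sin (2 * π * t)) ^ 2) *
          (ρ * (Real.cos (2 * π * t) * (2 * π))))) := by
      unfold pr
      rw [← intervalIntegral.integral_neg]
      refine intervalIntegral.integral_congr fun t _ => ?_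
      rw [ld_bx hρ0 hρ1, ld_bY, log_bx, log_bY]
      ring
    rw [h1]
    refine neg_ne_zero.2 (ne_of_gt ?_)
    have hsq : ∀ t : ℝ, 0 < √(1 - (ρ * Real.sin (2 * π * t)) ^ 2) := by
      intro t
      refine Real.sqrt_pos.2 ?_
      have h2 := lt_one hρ0 hρ1 t
      have h3 := (sq_lt_one_iff_abs_lt_one _).2 h2
      linarith
    have hnn : ∀ t : ℝ, 0 ≤ sig ρ t * (ρ * Real.cos (2 * π * t)) := by
      intro t
      unfold sig
      rcases le_total 0 (ρ * Real.cos (2 * π * t)) with h2 | h2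
      · exact mul_nonneg (Real.arsinh_nonneg_iff.2 h2) h2
      · exact mul_nonneg_of_nonpos_of_nonpos (Real.arsinh_nonpos_iff.2 h2) h2
    have e : ∀ t : ℝ, 2 * sig ρ t *
        (2 * (1 / √(1 - (ρ * Real.sin (2 * π * t)) ^ 2) *
          (ρ * (Real.cos (2 * π * t) * (2 * π))))) =
        (8 * π / √(1 - (ρ * Real.sin (2 * π * t)) ^ 2)) *
          (sig ρ t * (ρ * Real.cos (2 * π * t))) := by
      intro t
      ring
    simp only [e]
    refine intervalIntegral.integral_pos one_pos ?_ ?_ ⟨0, by simp, ?_⟩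
    · refine Continuous.continuousOn (Continuous.mul (Continuous.div continuous_const ?_ ?_) ?_)
      · exact Real.continuous_sqrt.comp (continuous_const.sub (contDiff_sin2.continuous.pow 2))
      · exact fun t => (hsq t).ne'
      · exact contDiff_sig.continuous.mul contDiff_cos2.continuous
    · intro t _
      exact mul_nonneg (div_nonneg (by positivity) (hsq t).le) (hnn t)
    · refine mul_pos (div_pos (by positivity) (hsq 0)) ?_
      unfold sig
      rw [mul_zero, Real.cos_zero, mul_one]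
      exact mul_pos (Real.arsinh_pos_iff.2 hρ0) hρ0

end caseB

/-- For `z ≠ 0` and `z ^ 2 ≠ 16` there is a loop with nonzero regulator. -/
theorem exists_loop {z : ℂ} (h0 : z ≠ 0) (h4 : z ^ 2 ≠ 16) : ∃ x y, LoopAt z x y := by
  by_cases hz : ∀ a : ℝ, |a| ≤ 4 → z ≠ a
  · exact exists_loopA hz
  · push Not at hz
    obtain ⟨a, ha, rfl⟩ := hz
    have ha0 : a ≠ 0 := fun h => h0 (by rw [h, Complex.ofReal_zero])
    have ha4 : a ^ 2 ≠ 16 := fun h => h4 (by rw [← Complex.ofReal_pow, h]; norm_num)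
    have ha5 : |a| < 4 := by
      refine lt_of_le_of_ne ha fun h => ha4 ?_
      rw [← sq_abs, h]
      norm_num
    rcases lt_or_gt_of_ne ha0 with h | h
    · have h1 : 0 < -a := by linarith
      have h2 : -a < 4 := by
        have := neg_abs_le a
        linarith
      obtain ⟨x, y, hl⟩ := exists_loopB h1 h2
      have h3 := hl.neg
      rw [Complex.ofReal_neg, neg_neg] at h3
      exact ⟨_, _, h3⟩
    · exact exists_loopB h ((le_abs_self a).trans_lt ha5)

end Pool.Agent.Run7.h770.IJ
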