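import Pool.Agent.Run7.h770.IJ.Tor
import Pool.Agent.Run7.h770.IJ.Loop
set_option autoImplicit false

/-!
The classes on all elliptic curves.
-/

namespace Pool.Agent.Run7.h770.IJ

open Polynomial WeierstrassCurve

open scoped WithZero

open Pool.Agent.TH826.MK (KQ symb Unramified unitPart Torus val_le_one_of_integral)

open Pool.Agent.TH826.UH

section loops

variable {K : Type*} [Field K] {k : K}

theorem exists_torus (h0 : k ≠ 0) (h4 : k ^ 2 ≠ 16) (s : K →+* ℂ) :
    ∃ Γ : Torus (Opn k) 1, (∀ θ c, Γ.e θ (cO k c) = s c) ∧ Γ.reg (symb ![fx k, fy k]) ≠ 0 := by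
  have hs : s k ≠ 0 := (map_ne_zero s).2 h0
  have hs4 : s k ^ 2 ≠ 16 := by
    intro h
    apply h4
    apply s.injective
    rw [map_pow, h, map_ofNat]
  obtain ⟨x, y, hl⟩ := exists_loop hs hs4
  have hP : ∀ t, Pt s k (x t) (y t) := fun t =>
    pt_of hs (hl.nzx.ne_zero t) (hl.nzy.ne_zero t) (hl.eq t)
  refine ⟨mkL hl.nzx.smooth hl.nzy.smooth hl.perx hl.pery hP, fun θ c => ?_, ?_⟩
  · exact (hP (θ 0)).evA_cO c
  · rw [mkL_reg]
    exact hl.reg

theorem del_ne (h0 : k ≠ 0) (h4 : k ^ 2 ≠ 16) (s : K →+* ℂ) : del k ≠ 0 := by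
  obtain ⟨Γ, -, -⟩ := exists_torus h0 h4 s
  intro h
  have h1 := (isUnit_del k).map (Γ.e 0)
  have h2 : Γ.e 0 (toO k (del k)) = 0 := by
    have h3 : toO k (del k) = toO k 0 := congrArg (toO k) h
    rw [h3, map_zero, map_zero]
  exact h1.ne_zero h2

/-- the embedding into the function field -/
theorem exists_hom (hd : del k ≠ 0) {F : Type*} [Field F] [Algebra (CR k) F]
    [IsFractionRing (CR k) F] :
    ∃ f : Opn k →+* F, ∀ b, f (toO k b) = algebraMap (CR k) F b := by
  have hinj : Function.Injective (algebraMap (CR k) F) := IsFractionRing.injective _ _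
  have hne : algebraMap (CR k) F (del k) ≠ 0 := by
    rw [Ne, map_eq_zero_iff _ hinj]
    exact hd
  exact ⟨IsLocalization.Away.lift (del k) (isUnit_iff_ne_zero.2 hne),
    fun b => IsLocalization.Away.lift_eq (del k) (isUnit_iff_ne_zero.2 hne) b⟩

theorem jk_eq (h0 : k ≠ 0) (h4 : k ^ 2 ≠ 16) :
    (k ^ 4 - 16 * k ^ 2 + 16) ^ 3 = jk k * (k ^ 2 * (k ^ 2 - 16)) := by
  unfold jk
  rw [div_mul_cancel₀]
  exact mul_ne_zero (pow_ne_zero 2 h0) (sub_ne_zero.2 h4)

theorem mem_unitPart (h0 : k ≠ 0) (h4 : k ^ 2 ≠ 16) {F : Type*} [Field F] (f : Opn k →+* F)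
    (v : Valuation F ℤᵐ⁰) (hj : v (f (cO k (jk k))) ≤ 1) :
    KQ.map 2 f (symb ![fx k, fy k]) ∈ unitPart v 2 := by
  have h1 : v (f (cO k k)) ≤ 1 := by
    refine val_le_of_j v (j := f (cO k (jk k))) ?_ hj
    have h2 := congrArg (fun z => f (cO k z)) (jk_eq h0 h4)
    simp only [map_mul, map_sub, map_add, map_pow, map_ofNat] at h2
    exact h2
  have h2 := congrArg f (fx_fy k)
  rw [map_mul, map_mul, map_add, map_add, map_mul, map_one] at h2
  rw [KQ.map_symb]
  have e : (fun i => Units.map (f : Opn k →* F) ((![fx k, fy k] : Fin 2 → (Opn k)ˣ) i)) =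
      ![Units.map (f : Opn k →* F) (fx k), Units.map (f : Opn k →* F) (fy k)] := by
    funext i
    fin_cases i <;> rfl
  rw [e]
  refine mem_unitPart_of_sum v h1 ?_
  have hx : f (fx k : Opn k) ≠ 0 := ((fx k).isUnit.map f).ne_zero
  have hy : f (fy k : Opn k) ≠ 0 := ((fy k).isUnit.map f).ne_zero
  have ex : ((Units.map (f : Opn k →* F) (fx k) : Fˣ) : F) = f (fx k : Opn k) := rfl
  have ey : ((Units.map (f : Opn k →* F) (fy k) : Fˣ) : F) = f (fy k : Opn k) := rfl
  rw [ex, ey]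
  field_simp
  linear_combination h2

end loops

universe u w

/-- The properties of the symbol `{x, y}` on the curve `crv k`. -/
def GoodClass {K : Type u} [Field K] (k : K) : Prop :=
  (crv k).Δ ≠ 0 ∧
  (∀ (F : Type w) [Field F] [Algebra (CR k) F] [IsFractionRing (CR k) F],
    ∃ f : Opn k →+* F, (∀ b, f (toO k b) = algebraMap (CR k) F b) ∧
      (∀ v : Valuation F ℤᵐ⁰, v (f (cO k (jk k))) ≤ 1 →
        KQ.map 2 f (symb ![fx k, fy k]) ∈ unitPart v 2) ∧
      (IsIntegral ℤ (jk k) → KQ.map 2 f (symb ![fx k, fy k]) ∈ Unramified F 2)) ∧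
  ∀ s : K →+* ℂ, ∃ Γ : Torus (Opn k) 1, (∀ θ c, Γ.e θ (cO k c) = s c) ∧
    Γ.reg (symb ![fx k, fy k]) ≠ 0

theorem goodClass {K : Type u} [Field K] [NumberField K] {k : K} (h0 : k ≠ 0) (h4 : k ^ 2 ≠ 16) :
    GoodClass.{u, w} k := by
  obtain ⟨s⟩ : Nonempty (K →+* ℂ) := inferInstance
  refine ⟨disc_ne h0 h4, fun F _ _ _ => ?_, fun s => exists_torus h0 h4 s⟩
  obtain ⟨f, hf⟩ := exists_hom (F := F) (del_ne h0 h4 s)
  refine ⟨f, hf, fun v hv => mem_unitPart h0 h4 f v hv, fun hi => ?_⟩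
  unfold Unramified
  rw [Submodule.mem_iInf]
  intro v
  rw [Submodule.mem_iInf]
  intro _
  refine mem_unitPart h0 h4 f v ?_
  exact val_le_one_of_integral v ((hi.map (cO k).toIntAlgHom).map f.toIntAlgHom)

theorem exists_ext (K : Type u) [Field K] [NumberField K] (E : WeierstrassCurve K)
    [E.IsElliptic] : ∃ (L : Type u) (_ : Field L) (_ : NumberField L) (_ : Algebra K L) (k : L)
      (C : VariableChange L), k ≠ 0 ∧ k ^ 2 ≠ 16 ∧ jk k = algebraMap K L E.j ∧
        C • E.map (algebraMap K L) = crv k := by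
  obtain ⟨k, h0, h4, hj, C, hC⟩ := exists_crv (E.map (algebraMap K (AlgebraicClosure K)))
  set S : Set (AlgebraicClosure K) := {k, (C.u : AlgebraicClosure K), C.r, C.s, C.t} with hS
  have hfin : S.Finite := by
    rw [hS]
    exact Set.toFinite _
  set L := IntermediateField.adjoin K S with hL
  have hsub : S ⊆ L := IntermediateField.subset_adjoin K S
  have _ : Finite S := hfin
  have hfd : FiniteDimensional K L :=
    IntermediateField.finiteDimensional_adjoin fun x _ =>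
      (Algebra.IsAlgebraic.isAlgebraic x).isIntegral
  have _ : FiniteDimensional ℚ L := Module.Finite.trans K L
  have hnf : NumberField L := ⟨⟩
  have hk : k ∈ L := hsub (by rw [hS]; simp)
  obtain ⟨C', hC'⟩ := descend L E ⟨k, hk⟩ C (hsub (by rw [hS]; simp)) (hsub (by rw [hS]; simp))
    (hsub (by rw [hS]; simp)) (hsub (by rw [hS]; simp)) hC
  refine ⟨L, inferInstance, hnf, inferInstance, ⟨k, hk⟩, C', ?_, ?_, ?_, hC'⟩
  · intro h
    exact h0 (congrArg Subtype.val h)
  · intro h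
    exact h4 (congrArg Subtype.val h)
  · apply Subtype.val_injective
    rw [WeierstrassCurve.map_j] at hj
    show _ = algebraMap K (AlgebraicClosure K) E.j
    rw [← hj]
    unfold jk
    rfl

end Pool.Agent.Run7.h770.IJ
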