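import Pool.Agent.Run7.h770.IJ.Final
set_option autoImplicit false

/-!
The classes on all elliptic curves, with the integrality condition on the parameter `k`.
-/

namespace Pool.Agent.Run7.h770.IJ

open Polynomial WeierstrassCurve

open scoped WithZero

open Pool.Agent.TH826.MK (KQ symb Unramified unitPart Torus val_le_one_of_integral)

open Pool.Agent.TH826.UH

section val

variable {K : Type*} [Field K] {k : K}

theorem mem_unitPartK {F : Type*} [Field F] (f : Opn k →+* F)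
    (v : Valuation F ℤᵐ⁰) (h1 : v (f (cO k k)) ≤ 1) :
    KQ.map 2 f (symb ![fx k, fy k]) ∈ unitPart v 2 := by
  have h2 := congrArg f (fx_fy k)
  rw [map_mul, map_mul, map_add, map_add, map_mul, map_one] at h2
  rw [KQ.map_symb]
  have e : (fun i => Units.map (f : Opn k →* F) ((![fx k, fy k] : Fin 2 → (Opn k)ˣ) i)) =
      ![Units.map (f : Opn k →* F) (fx k), Units.map (f : Opn k →* F) (fy k)] := by
    funext i
    fin_cases i <;> rfl
  rw [e]
  refine mem_unitPart_of_sum v h1 ?_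
  have hx : f (fx k : Opn k) ≠ 0 := ((fx k).isUnit.map f).ne_zero
  have hy : f (fy k : Opn k) ≠ 0 := ((fy k).isUnit.map f).ne_zero
  have ex : ((Units.map (f : Opn k →* F) (fx k) : Fˣ) : F) = f (fx k : Opn k) := rfl
  have ey : ((Units.map (f : Opn k →* F) (fy k) : Fˣ) : F) = f (fy k : Opn k) := rfl
  rw [ex, ey]
  field_simp
  linear_combination h2

theorem int_of_jk (h0 : k ≠ 0) (h4 : k ^ 2 ≠ 16) (hj : IsIntegral ℤ (jk k)) : IsIntegral ℤ k := by
  have h := jk_eq h0 h4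
  generalize jk k = j at hj h
  have h1 : IsIntegral (integralClosure ℤ K) k := by
    refine ⟨(X ^ 4 - 16 * X ^ 2 + 16) ^ 3 -
      C (⟨j, hj⟩ : integralClosure ℤ K) * (X ^ 2 * (X ^ 2 - 16)), by monicity!, ?_⟩
    simp only [eval₂_add, eval₂_sub, eval₂_mul, eval₂_pow, eval₂_X, eval₂_C, eval₂_ofNat]
    show (k ^ 4 - 16 * k ^ 2 + 16) ^ 3 - j * (k ^ 2 * (k ^ 2 - 16)) = 0
    rw [h, sub_self]
  exact isIntegral_trans (A := integralClosure ℤ K) k h1

end val

universe u w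

/-- The properties of the symbol `{x, y}` on the curve `crv k`. -/
def GoodSymbol {K : Type u} [Field K] (k : K) : Prop :=
  (crv k).Δ ≠ 0 ∧
  (∀ (F : Type w) [Field F] [Algebra (CR k) F] [IsFractionRing (CR k) F],
    ∃ f : Opn k →+* F, (∀ b, f (toO k b) = algebraMap (CR k) F b) ∧
      (∀ v : Valuation F ℤᵐ⁰, v (f (cO k k)) ≤ 1 →
        KQ.map 2 f (symb ![fx k, fy k]) ∈ unitPart v 2) ∧
      (IsIntegral ℤ k → KQ.map 2 f (symb ![fx k, fy k]) ∈ Unramified F 2)) ∧
  ∀ s : K →+* ℂ, ∃ Γ : Torus (Opn k) 1, (∀ θ c, Γ.e θ (cO k c) = s c) ∧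
    Γ.reg (symb ![fx k, fy k]) ≠ 0

theorem goodSymbol {K : Type u} [Field K] [NumberField K] {k : K} (h0 : k ≠ 0) (h4 : k ^ 2 ≠ 16) :
    GoodSymbol.{u, w} k := by
  obtain ⟨s⟩ : Nonempty (K →+* ℂ) := inferInstance
  refine ⟨disc_ne h0 h4, fun F _ _ _ => ?_, fun s => exists_torus h0 h4 s⟩
  obtain ⟨f, hf⟩ := exists_hom (F := F) (del_ne h0 h4 s)
  refine ⟨f, hf, fun v hv => mem_unitPartK f v hv, fun hi => ?_⟩
  unfold Unramified
  rw [Submodule.mem_iInf]
  intro v
  rw [Submodule.mem_iInf]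
  intro _
  refine mem_unitPartK f v ?_
  exact val_le_one_of_integral v ((hi.map (cO k).toIntAlgHom).map f.toIntAlgHom)

end Pool.Agent.Run7.h770.IJ
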