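import Pool.Agent.R388.CU.Unr
import Pool.Agent.TH826.MK.Variety
import Pool.Agent.Run7.h770.IJ.Crv
set_option autoImplicit false

/-!
The elliptic curves `Y² + k X Y = X³ - 2 X² + X`, that is `x + 1/x + y + 1/y = k`, and the symbol
`{x, y}`.
-/

namespace Pool.Agent.Run7.h770.IJ

open Polynomial

open scoped WithZero

open Pool.Agent.TH826.MK (KQ symb Unramified unitPart val_le_one_of_integral)

open Pool.Agent.R388.CU (mem_of_units mem_of_add_lt upd0 upd1 add_l)

open Pool.Agent.TH826.SX (symb_upd_inv)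

section tame

variable {L : Type*} [Field L] (v : Valuation L ℤᵐ⁰)

theorem symb_inv_left (x y : Lˣ) : symb ![x⁻¹, y] = -symb ![x, y] := by
  have h := symb_upd_inv ![x, y] 0 x
  rwa [upd0, upd0] at h

theorem symb_inv_right (x y : Lˣ) : symb ![x, y⁻¹] = -symb ![x, y] := by
  have h := symb_upd_inv ![x, y] 1 y
  rwa [upd1, upd1] at h

theorem mem_aux {x y : Lˣ} {k : L} (hk : v k ≤ 1)
    (h : (x : L) + (x : L)⁻¹ + y + (y : L)⁻¹ = k) (hx : 1 ≤ v (x : L)) (hy : 1 ≤ v (y : L)) :
    symb ![x, y] ∈ unitPart v 2 := by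
  have hxi : v ((x : L)⁻¹) ≤ 1 := by
    rw [map_inv₀]
    exact inv_le_one_of_one_le₀ hx
  have hyi : v ((y : L)⁻¹) ≤ 1 := by
    rw [map_inv₀]
    exact inv_le_one_of_one_le₀ hy
  have hs : v ((x : L) + y) ≤ 1 := by
    have e : (x : L) + y = k - ((x : L)⁻¹ + (y : L)⁻¹) := by linear_combination h
    rw [e]
    exact (v.map_sub _ _).trans (max_le hk ((v.map_add _ _).trans (max_le hxi hyi)))
  rcases lt_or_eq_of_le hx with h1 | h1
  · exact mem_of_add_lt v (hs.trans_lt h1)
  · rcases lt_or_eq_of_le hy with h2 | h2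
    · exfalso
      have e : v ((x : L) + y) = v (y : L) := add_l v (by rw [← h1]; exact h2)
      rw [e] at hs
      exact absurd h2 (not_lt.2 hs)
    · exact mem_of_units v h1.symm h2.symm

/-- If `x + 1/x + y + 1/y = k` and `k` is integral at `v`, then the symbol `{x, y}` lies in the unit
part. -/
theorem mem_unitPart_of_sum {x y : Lˣ} {k : L} (hk : v k ≤ 1)
    (h : (x : L) + (x : L)⁻¹ + y + (y : L)⁻¹ = k) : symb ![x, y] ∈ unitPart v 2 := by
  have hinv : ∀ z : Lˣ, v (z : L) < 1 → 1 ≤ v ((z⁻¹ : Lˣ) : L) := by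
    intro z hz
    have h0 : 0 < v (z : L) := zero_lt_iff.2 ((Valuation.ne_zero_iff v).2 z.ne_zero)
    rw [Units.val_inv_eq_inv_val, map_inv₀]
    exact (one_le_inv₀ h0).2 hz.le
  rcases le_or_gt 1 (v (x : L)) with hx | hx <;> rcases le_or_gt 1 (v (y : L)) with hy | hy
  · exact mem_aux v hk h hx hy
  · have h1 := mem_aux v (x := x) (y := y⁻¹) hk (by
      rw [Units.val_inv_eq_inv_val, inv_inv]; linear_combination h) hx (hinv y hy)
    rw [symb_inv_right] at h1
    exact (Submodule.neg_mem_iff _).1 h1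
  · have h1 := mem_aux v (x := x⁻¹) (y := y) hk (by
      rw [Units.val_inv_eq_inv_val, inv_inv]; linear_combination h) (hinv x hx) hy
    rw [symb_inv_left] at h1
    exact (Submodule.neg_mem_iff _).1 h1
  · have h1 := mem_aux v (x := x⁻¹) (y := y⁻¹) hk (by
      rw [Units.val_inv_eq_inv_val, Units.val_inv_eq_inv_val, inv_inv, inv_inv]
      linear_combination h) (hinv x hx) (hinv y hy)
    rw [symb_inv_left, symb_inv_right, neg_neg] at h1
    exact h1

end tame

variable {K : Type*} [Field K]

/-- The affine coordinate ring of the curve. -/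
abbrev CR (k : K) : Type _ := WeierstrassCurve.Affine.CoordinateRing (crv k)

/-- The constants. -/
noncomputable def cst (k : K) : K →+* CR k :=
  (WeierstrassCurve.Affine.CoordinateRing.mk (crv k)).comp (C.comp C)

/-- The first coordinate `X`. -/
noncomputable def cX (k : K) : CR k :=
  WeierstrassCurve.Affine.CoordinateRing.mk (crv k) (C X)

/-- The second coordinate `Y`. -/
noncomputable def cY (k : K) : CR k :=
  WeierstrassCurve.Affine.CoordinateRing.mk (crv k) X

theorem cY_eqn (k : K) : cY k * (cY k + cst k k * cX k) = cX k * (cX k - 1) ^ 2 := by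
  have h : (WeierstrassCurve.Affine.CoordinateRing.mk (crv k)) (X ^ 2 +
      C (C k * X + C 0) * X - C (X ^ 3 + C (-2) * X ^ 2 + C 1 * X + C 0)) = 0 :=
    AdjoinRoot.mk_self
  have e1 : ∀ a : K, (WeierstrassCurve.Affine.CoordinateRing.mk (crv k)) (C (C a)) = cst k a :=
    fun _ => rfl
  have e2 : (WeierstrassCurve.Affine.CoordinateRing.mk (crv k)) (C X) = cX k := rfl
  have e3 : (WeierstrassCurve.Affine.CoordinateRing.mk (crv k)) X = cY k := rfl
  simp only [C_add, C_mul, C_pow] at h
  rw [map_sub, map_add, map_add, map_add, map_add, map_mul, map_mul, map_mul, map_add, map_mul,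
    map_pow, map_pow, map_pow, e1, e1, e1, e1, e2, e3, map_neg, map_zero, map_one, map_ofNat] at h
  linear_combination h

/-- The function `X (X - 1)`. -/
noncomputable def del (k : K) : CR k := cX k * (cX k - 1)

/-- The polynomial `del Z - 1`. -/
noncomputable def oeq (k : K) : (CR k)[X] := C (del k) * X - 1

/-- The coordinate ring `R[Z] / (X (X - 1) Z - 1)` of the open part `X ≠ 0, 1` of the curve. -/
def Opn (k : K) : Type _ := AdjoinRoot (oeq k)

noncomputable instance instOpn (k : K) : CommRing (Opn k) := AdjoinRoot.instCommRing (oeq k)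

/-- The restriction of functions to the open part. -/
noncomputable def toO (k : K) : CR k →+* Opn k := AdjoinRoot.of (oeq k)

noncomputable instance instAlgOpn (k : K) : Algebra (CR k) (Opn k) :=
  inferInstanceAs (Algebra (CR k) (AdjoinRoot (oeq k)))

instance instLocOpn (k : K) : IsLocalization.Away (del k) (Opn k) :=
  IsLocalization.adjoin_inv (del k)

/-- The constants in the ring of the open part. -/
noncomputable def cO (k : K) : K →+* Opn k := (toO k).comp (cst k)

variable (k : K)

theorem isUnit_del : IsUnit (toO k (del k)) := IsLocalization.Away.algebraMap_isUnit (del k)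

theorem isUnit_1 : IsUnit (toO k (1 - cX k)) := by
  refine isUnit_of_dvd_unit (map_dvd _ ?_) (isUnit_del k)
  exact ⟨-cX k, by unfold del; ring⟩

theorem isUnit_YZ : IsUnit (toO k (cY k * (cY k + cst k k * cX k))) := by
  rw [cY_eqn]
  have e : cX k * (cX k - 1) ^ 2 = del k * (cX k - 1) := by
    unfold del
    ring
  rw [e, map_mul]
  refine (isUnit_del k).mul ?_
  refine isUnit_of_dvd_unit (map_dvd _ ?_) (isUnit_del k)
  exact ⟨cX k, by unfold del; ring⟩

theorem isUnit_Y : IsUnit (toO k (cY k)) :=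
  isUnit_of_dvd_unit (map_dvd _ (dvd_mul_right _ _)) (isUnit_YZ k)

theorem isUnit_Z : IsUnit (toO k (cY k + cst k k * cX k)) :=
  isUnit_of_dvd_unit (map_dvd _ (dvd_mul_left _ _)) (isUnit_YZ k)

/-- The unit `1 - X`. -/
noncomputable def u1 : (Opn k)ˣ := (isUnit_1 k).unit

/-- The unit `Y`. -/
noncomputable def uY : (Opn k)ˣ := (isUnit_Y k).unit

/-- The unit `Y + k X`. -/
noncomputable def uZ : (Opn k)ˣ := (isUnit_Z k).unit

/-- The function `x = Y / (1 - X)`. -/
noncomputable def fx : (Opn k)ˣ := uY k / u1 k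

/-- The function `y = - (Y + k X) / (1 - X)`. -/
noncomputable def fy : (Opn k)ˣ := -(uZ k / u1 k)

theorem coe_u1 : (u1 k : Opn k) = toO k (1 - cX k) := rfl
theorem coe_uY : (uY k : Opn k) = toO k (cY k) := rfl
theorem coe_uZ : (uZ k : Opn k) = toO k (cY k + cst k k * cX k) := rfl

theorem fx_mul : (fx k : Opn k) * toO k (1 - cX k) = toO k (cY k) := by
  rw [← coe_u1, ← coe_uY, ← Units.val_mul]
  unfold fx
  rw [div_mul_cancel]

theorem fy_mul : (fy k : Opn k) * toO k (1 - cX k) = -toO k (cY k + cst k k * cX k) := by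
  rw [← coe_u1, ← coe_uZ, ← Units.val_mul, ← Units.val_neg]
  unfold fy
  rw [neg_mul, div_mul_cancel]

/-- The equation `x + 1/x + y + 1/y = k`. -/
theorem fx_fy : ((fx k : Opn k) + fy k) * (fx k * fy k + 1) = cO k k * (fx k * fy k) := by
  have h1 := fx_mul k
  have h2 := fy_mul k
  have h3 := congrArg (toO k) (cY_eqn k)
  have hu := isUnit_1 k
  have e : cO k k = toO k (cst k k) := rfl
  rw [e]
  refine (hu.pow 3).mul_left_cancel ?_
  rw [map_mul, map_add, map_mul, map_mul, map_pow, map_sub, map_one] at h3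
  rw [map_add, map_mul] at h2
  rw [map_sub, map_one] at h1 h2 ⊢
  generalize (fx k : Opn k) = x at *
  generalize (fy k : Opn k) = y at *
  generalize toO k (cX k) = A at *
  generalize toO k (cY k) = B at *
  generalize toO k (cst k k) = c at *
  have h4 : y * (1 - A) = -(B + c * A) := by linear_combination h2
  have e1 : (1 - A) ^ 3 * ((x + y) * (x * y + 1)) =
      (x * (1 - A) + y * (1 - A)) * ((x * (1 - A)) * (y * (1 - A)) + (1 - A) ^ 2) := by ring
  have e2 : (1 - A) ^ 3 * (c * (x * y)) = (1 - A) * c * ((x * (1 - A)) * (y * (1 - A))) := by ring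
  rw [e1, e2, h1, h4]
  linear_combination c * h3

end Pool.Agent.Run7.h770.IJ
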