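import Pool.Agent.Run7.h770.IJ.Ring
import Pool.Agent.TH826.UH.Pair
set_option autoImplicit false

/-!
Loops in the complex points of the curves.
-/

namespace Pool.Agent.Run7.h770.IJ

open Polynomial

open Pool.Agent.TH826.MK (KQ symb Torus pairing)

open Pool.Agent.TH826.UH

variable {K : Type*} [Field K]

/-- the complex points of the open part of the curve, in terms of `x` and `y` -/
structure Pt (s : K →+* ℂ) (k : K) (x y : ℂ) : Prop where
  x0 : x ≠ 0
  y0 : y ≠ 0
  q0 : 1 + x * y ≠ 0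
  eq : (x + y) * (x * y + 1) = s k * (x * y)

theorem pt_of {s : K →+* ℂ} {k : K} {x y : ℂ} (hk : s k ≠ 0) (hx : x ≠ 0) (hy : y ≠ 0)
    (h : x + x⁻¹ + y + y⁻¹ = s k) : Pt s k x y := by
  have h1 : (x + y) * (x * y + 1) = s k * (x * y) := by
    rw [← h]
    field_simp
    ring
  refine ⟨hx, hy, fun h0 => ?_, h1⟩
  have h2 : x * y + 1 = 0 := by linear_combination h0
  rw [h2, mul_zero] at h1
  exact mul_ne_zero hk (mul_ne_zero hx hy) h1.symm

section points

variable {s : K →+* ℂ} {k : K} {x y : ℂ}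

theorem Pt.eval_eq (h : Pt s k x y) :
    (WeierstrassCurve.Affine.polynomial (crv k)).eval₂
      (Polynomial.eval₂RingHom s (-(x * y))) (x * (1 + x * y)) = 0 := by
  have h1 := h.eq
  unfold WeierstrassCurve.Affine.polynomial crv
  simp only [map_add, map_mul, map_zero, map_neg, map_one, add_zero,
    Polynomial.eval₂_add, Polynomial.eval₂_neg, Polynomial.eval₂_one,
    Polynomial.eval₂_sub, Polynomial.eval₂_pow, Polynomial.eval₂_X, Polynomial.eval₂_mul,
    Polynomial.eval₂_C, Polynomial.coe_eval₂RingHom, map_ofNat, Polynomial.eval₂_ofNat]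
  linear_combination (x * (1 + x * y)) * h1

/-- evaluation of the regular functions on the curve -/
noncomputable def Pt.evB (h : Pt s k x y) : CR k →+* ℂ :=
  AdjoinRoot.lift (Polynomial.eval₂RingHom s (-(x * y))) (x * (1 + x * y)) h.eval_eq

theorem Pt.evB_mk (h : Pt s k x y) (q : K[X][X]) :
    h.evB (WeierstrassCurve.Affine.CoordinateRing.mk (crv k) q) =
      q.eval₂ (Polynomial.eval₂RingHom s (-(x * y))) (x * (1 + x * y)) :=
  AdjoinRoot.lift_mk h.eval_eq q

theorem Pt.evB_cX (h : Pt s k x y) : h.evB (cX k) = -(x * y) := by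
  unfold cX
  rw [h.evB_mk]
  simp

theorem Pt.evB_cY (h : Pt s k x y) : h.evB (cY k) = x * (1 + x * y) := by
  unfold cY
  rw [h.evB_mk]
  simp

theorem Pt.evB_cst (h : Pt s k x y) (a : K) : h.evB (cst k a) = s a := by
  unfold cst
  rw [RingHom.comp_apply, h.evB_mk]
  simp

theorem Pt.evB_del (h : Pt s k x y) : IsUnit (h.evB (del k)) := by
  refine isUnit_iff_ne_zero.2 ?_
  unfold del
  rw [map_mul, map_sub, map_one, h.evB_cX]
  refine mul_ne_zero (neg_ne_zero.2 (mul_ne_zero h.x0 h.y0)) fun h1 => h.q0 ?_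
  linear_combination -h1

/-- evaluation of the regular functions on the open part -/
noncomputable def Pt.evA (h : Pt s k x y) : Opn k →+* ℂ :=
  IsLocalization.Away.lift (del k) h.evB_del

theorem Pt.evA_toO (h : Pt s k x y) (r : CR k) : h.evA (toO k r) = h.evB r :=
  IsLocalization.Away.lift_eq (del k) h.evB_del r

theorem Pt.evA_cO (h : Pt s k x y) (a : K) : h.evA (cO k a) = s a := by
  unfold cO
  rw [RingHom.comp_apply, h.evA_toO, h.evB_cst]

theorem Pt.evA_fx (h : Pt s k x y) : h.evA (fx k : Opn k) = x := by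
  have h1 := congrArg h.evA (fx_mul k)
  rw [map_mul, h.evA_toO, h.evA_toO, map_sub, map_one, h.evB_cX, h.evB_cY] at h1
  refine mul_right_cancel₀ h.q0 ?_
  linear_combination h1

theorem Pt.evA_fy (h : Pt s k x y) : h.evA (fy k : Opn k) = y := by
  have h1 := congrArg h.evA (fy_mul k)
  have h2 := h.eq
  rw [map_mul, map_neg, h.evA_toO, h.evA_toO, map_sub, map_one, map_add, map_mul, h.evB_cX,
    h.evB_cY, h.evB_cst] at h1
  refine mul_right_cancel₀ h.q0 ?_
  linear_combination h1 - h2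

theorem Pt.evA_congr {x' y' : ℂ} (h : Pt s k x y) (h' : Pt s k x' y') (e : x = x')
    (e' : y = y') : h.evA = h'.evA := by
  subst e
  subst e'
  rfl

theorem contDiff_evA {x y : (Fin 1 → ℝ) → ℂ} (hx : ContDiff ℝ 2 x)
    (hy : ContDiff ℝ 2 y) (hP : ∀ θ, Pt s k (x θ) (y θ)) (h : Opn k) :
    ContDiff ℝ 2 fun θ => (hP θ).evA h := by
  have hX : ContDiff ℝ 2 fun θ => -(x θ * y θ) := (hx.mul hy).neg
  have hY : ContDiff ℝ 2 fun θ => x θ * (1 + x θ * y θ) :=
    hx.mul (contDiff_const.add (hx.mul hy))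
  have hpol : ∀ q : K[X], ContDiff ℝ 2 fun θ => q.eval₂ s (-(x θ * y θ)) := by
    intro q
    have e : (fun θ => q.eval₂ s (-(x θ * y θ))) = fun θ =>
        ∑ i ∈ Finset.range (q.natDegree + 1), s (q.coeff i) * (-(x θ * y θ)) ^ i := by
      funext θ
      rw [Polynomial.eval₂_eq_sum_range]
    rw [e]
    exact ContDiff.sum fun i _ => contDiff_const.mul (hX.pow i)
  have hB : ∀ r : CR k, ContDiff ℝ 2 fun θ => (hP θ).evB r := by
    intro r
    obtain ⟨q, hq⟩ := AdjoinRoot.mk_surjective (g := WeierstrassCurve.Affine.polynomial (crv k)) r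
    have e : (fun θ => (hP θ).evB r) = fun θ =>
        ∑ i ∈ Finset.range (q.natDegree + 1), (q.coeff i).eval₂ s (-(x θ * y θ)) *
          (x θ * (1 + x θ * y θ)) ^ i := by
      funext θ
      have h1 := (hP θ).evB_mk q
      rw [Polynomial.eval₂_eq_sum_range] at h1
      rw [← hq]
      exact h1
    rw [e]
    exact ContDiff.sum fun i _ => (hpol _).mul (hY.pow i)
  obtain ⟨r, d, hd⟩ := IsLocalization.exists_mk'_eq (Submonoid.powers (del k)) h
  have hne : ∀ θ, (hP θ).evB (d : CR k) ≠ 0 := by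
    intro θ
    obtain ⟨i, hi⟩ := d.2
    rw [← hi]
    simp only [map_pow]
    exact pow_ne_zero _ (hP θ).evB_del.ne_zero
  have e : (fun θ => (hP θ).evA h) = fun θ => (hP θ).evB r / (hP θ).evB (d : CR k) := by
    funext θ
    rw [eq_div_iff (hne θ), ← hd, ← (hP θ).evA_toO, ← (hP θ).evA_toO, ← map_mul]
    congr 1
    exact IsLocalization.mk'_spec _ r d
  rw [e]
  simp only [div_eq_mul_inv]
  exact (hB r).mul ((hB _).inv hne)

/-- A loop in the open part of the curve. -/
noncomputable def mkL {x y : ℝ → ℂ} (hx : ContDiff ℝ 2 x) (hy : ContDiff ℝ 2 y)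
    (hx1 : ∀ t, x (t + 1) = x t) (hy1 : ∀ t, y (t + 1) = y t)
    (hP : ∀ t, Pt s k (x t) (y t)) : Torus (Opn k) 1 where
  e θ := (hP (θ 0)).evA
  smooth h := contDiff_evA (x := fun θ => x (θ 0)) (y := fun θ => y (θ 0))
    (hx.comp (contDiff_apply ℝ ℝ 0)) (hy.comp (contDiff_apply ℝ ℝ 0)) (fun θ => hP (θ 0)) h
  periodic θ i := by
    have h0 : (θ + Pi.single i 1 : Fin 1 → ℝ) 0 = θ 0 + 1 := by
      rw [Pi.add_apply, Subsingleton.elim i 0, Pi.single_eq_same]
    refine Pt.evA_congr _ _ ?_ ?_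
    · rw [h0, hx1]
    · rw [h0, hy1]

end points

section reg

/-- The regulator of a symbol on a loop. -/
theorem reg_aux {A : Type*} [CommRing A] (Γ : Torus A 1) (a : Fin 2 → Aˣ)
    {U V : ℝ → ℂ} (hU : ∀ θ, Γ.e θ (a 0 : A) = U (θ 0))
    (hV : ∀ θ, Γ.e θ (a 1 : A) = V (θ 0)) : Γ.reg (symb a) = pr U V := by
  have gU : NZ U := by
    have h1 := Γ.good (a 0)
    have h2 : (fun x : ℝ => Γ.fn (a 0 : A) (fun _ => x)) = U := by
      funext x
      exact hU _
    refine ⟨?_, fun x => ?_⟩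
    · rw [← h2]
      exact h1.smooth.comp (contDiff_pi.2 fun _ => contDiff_id)
    · rw [← h2]
      exact h1.ne_zero _
  have gV : NZ V := by
    have h1 := Γ.good (a 1)
    have h2 : (fun x : ℝ => Γ.fn (a 1 : A) (fun _ => x)) = V := by
      funext x
      exact hV _
    refine ⟨?_, fun x => ?_⟩
    · rw [← h2]
      exact h1.smooth.comp (contDiff_pi.2 fun _ => contDiff_id)
    · rw [← h2]
      exact h1.ne_zero _
  rw [← pairing_eq_pr gU gV, Torus.reg_symb]
  unfold Torus.pair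
  congr 1
  funext i θ
  fin_cases i
  · exact hU θ
  · exact hV θ

variable {s : K →+* ℂ} {k : K} {x y : ℝ → ℂ} (hx : ContDiff ℝ 2 x) (hy : ContDiff ℝ 2 y)
    (hx1 : ∀ t, x (t + 1) = x t) (hy1 : ∀ t, y (t + 1) = y t)
    (hP : ∀ t, Pt s k (x t) (y t))

theorem mkL_reg : (mkL hx hy hx1 hy1 hP).reg (symb ![fx k, fy k]) = pr x y :=
  reg_aux _ _ (fun θ => (hP (θ 0)).evA_fx) (fun θ => (hP (θ 0)).evA_fy)

end reg

end Pool.Agent.Run7.h770.IJ
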